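import Pool.Agent.Helper38.XF.Tools

/-!
Swarm XF, part ULT (helper6): properties of the ultrapower.
-/

set_option autoImplicit false

namespace Pool.Agent.Helper6.XF.ULT

open Pool.Agent.Helper38.XF Filter

variable {K : Type} [Field K]

/-- the ultrafilter -/
noncomputable abbrev uf : Ultrafilter ℕ := Filter.hyperfilter ℕ

/-- germs of functions, as a ring homomorphism -/
noncomputable def R : (ℕ → K) →+* UP K := Filter.Germ.coeRingHom (uf : Filter ℕ)

theorem R_def (f : ℕ → K) : R f = (f : UP K) := rfl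

theorem R_surj (z : UP K) : ∃ f : ℕ → K, R f = z := by
  induction z using Filter.Germ.inductionOn with
  | _ f => exact ⟨f, rfl⟩

theorem R_eq (f g : ℕ → K) : R f = R g ↔ ∀ᶠ n in (uf : Filter ℕ), f n = g n := by
  rw [R_def, R_def]
  exact Filter.Germ.coe_eq

theorem R_eq_zero (f : ℕ → K) : R f = 0 ↔ ∀ᶠ n in (uf : Filter ℕ), f n = 0 := by
  rw [← map_zero R, R_eq]; rfl

theorem R_ne_zero (f : ℕ → K) : R f ≠ 0 ↔ ∀ᶠ n in (uf : Filter ℕ), f n ≠ 0 := by
  rw [Ne, R_eq_zero, ← Ultrafilter.eventually_not]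

/-- the valuation ring of the ultrapower -/
noncomputable def O' (O : ValuationSubring K) : ValuationSubring (UP K) where
  carrier := {z | Filter.Germ.LiftPred (fun x => x ∈ O) z}
  mul_mem' := by
    intro a b ha hb
    obtain ⟨f, rfl⟩ := R_surj a
    obtain ⟨g, rfl⟩ := R_surj b
    have ha' : ∀ᶠ n in (uf : Filter ℕ), f n ∈ O := ha
    have hb' : ∀ᶠ n in (uf : Filter ℕ), g n ∈ O := hb
    show ∀ᶠ n in (uf : Filter ℕ), f n * g n ∈ O
    filter_upwards [ha', hb'] with n h1 h2 using O.mul_mem _ _ h1 h2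
  one_mem' := by
    show ∀ᶠ n in (uf : Filter ℕ), (1 : K) ∈ O
    exact Filter.Eventually.of_forall fun _ => O.one_mem
  add_mem' := by
    intro a b ha hb
    obtain ⟨f, rfl⟩ := R_surj a
    obtain ⟨g, rfl⟩ := R_surj b
    have ha' : ∀ᶠ n in (uf : Filter ℕ), f n ∈ O := ha
    have hb' : ∀ᶠ n in (uf : Filter ℕ), g n ∈ O := hb
    show ∀ᶠ n in (uf : Filter ℕ), f n + g n ∈ O
    filter_upwards [ha', hb'] with n h1 h2 using O.add_mem _ _ h1 h2
  zero_mem' := by
    show ∀ᶠ n in (uf : Filter ℕ), (0 : K) ∈ O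
    exact Filter.Eventually.of_forall fun _ => O.zero_mem
  neg_mem' := by
    intro a ha
    obtain ⟨f, rfl⟩ := R_surj a
    have ha' : ∀ᶠ n in (uf : Filter ℕ), f n ∈ O := ha
    show ∀ᶠ n in (uf : Filter ℕ), -f n ∈ O
    filter_upwards [ha'] with n h1 using O.neg_mem _ h1
  mem_or_inv_mem' := by
    intro a
    obtain ⟨f, rfl⟩ := R_surj a
    show (∀ᶠ n in (uf : Filter ℕ), f n ∈ O) ∨ (∀ᶠ n in (uf : Filter ℕ), (f n)⁻¹ ∈ O)
    rw [← Ultrafilter.eventually_or]
    exact Filter.Eventually.of_forall fun n => O.mem_or_inv_mem _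

theorem mem_O' (O : ValuationSubring K) (f : ℕ → K) :
    R f ∈ O' O ↔ ∀ᶠ n in (uf : Filter ℕ), f n ∈ O := Iff.rfl

theorem near_iff (O : ValuationSubring K) (e x y : ℕ → K) :
    Near (O' O) (R e) (R x) (R y) ↔ ∀ᶠ n in (uf : Filter ℕ), Near O (e n) (x n) (y n) := by
  constructor
  · rintro ⟨z, hz, h⟩
    obtain ⟨f, rfl⟩ := R_surj z
    rw [← map_sub, ← map_mul, R_eq] at h
    rw [mem_O'] at hz
    filter_upwards [hz, h] with n h1 h2
    exact ⟨f n, h1, h2⟩
  · intro h
    classical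
    have hc : ∀ n, ∃ z : K, Near O (e n) (x n) (y n) → z ∈ O ∧ x n - y n = e n * z := by
      intro n
      by_cases hn : Near O (e n) (x n) (y n)
      · obtain ⟨z, hz, h⟩ := hn
        exact ⟨z, fun _ => ⟨hz, h⟩⟩
      · exact ⟨0, fun h => absurd h hn⟩
    choose z hz using hc
    refine ⟨R z, ?_, ?_⟩
    · rw [mem_O']
      filter_upwards [h] with n hn using (hz n hn).1
    · rw [← map_sub, ← map_mul, R_eq]
      filter_upwards [h] with n hn using (hz n hn).2

theorem hens (O : ValuationSubring K) (hO : Hens O) : Hens (O' O) := by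
  intro d c a e he h0 h1
  choose C hC using fun i => R_surj (c i)
  obtain ⟨A, rfl⟩ := R_surj a
  obtain ⟨E, rfl⟩ := R_surj e
  obtain rfl : (fun i => R (C i)) = c := funext hC
  rw [R_ne_zero] at he
  have h0' : ∀ᶠ n in (uf : Filter ℕ), ∑ i ∈ Finset.range (d + 1), C i n * A n ^ i = 0 := by
    have : R (∑ i ∈ Finset.range (d + 1), C i * A ^ i) = 0 := by
      rw [← h0, map_sum]
      exact Finset.sum_congr rfl fun i _ => by rw [map_mul, map_pow]
    rw [R_eq_zero] at this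
    filter_upwards [this] with n hn
    simpa using hn
  have h1' : ∀ᶠ n in (uf : Filter ℕ),
      ∑ i ∈ Finset.range (d + 1), (i : K) * C i n * A n ^ (i - 1) ≠ 0 := by
    have : R (∑ i ∈ Finset.range (d + 1), (i : ℕ → K) * C i * A ^ (i - 1)) ≠ 0 := by
      rw [map_sum]
      convert h1 using 1
      exact Finset.sum_congr rfl fun i _ => by rw [map_mul, map_mul, map_pow, map_natCast]
    rw [R_ne_zero] at this
    filter_upwards [this] with n hn
    simpa using hn
  have hd : ∀ n, ∃ δ : K, δ ≠ 0 ∧ (E n ≠ 0 →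
      ∑ i ∈ Finset.range (d + 1), C i n * A n ^ i = 0 →
      ∑ i ∈ Finset.range (d + 1), (i : K) * C i n * A n ^ (i - 1) ≠ 0 →
      ∀ c' : ℕ → K, (∀ i ≤ d, Near O δ (c' i) (C i n)) →
      ∃ a', Near O (E n) a' (A n) ∧ ∑ i ∈ Finset.range (d + 1), c' i * a' ^ i = 0) := by
    intro n
    by_cases hn : E n ≠ 0 ∧ ∑ i ∈ Finset.range (d + 1), C i n * A n ^ i = 0 ∧
      ∑ i ∈ Finset.range (d + 1), (i : K) * C i n * A n ^ (i - 1) ≠ 0
    · obtain ⟨δ, hδ, h⟩ := hO d (fun i => C i n) (A n) (E n) hn.1 hn.2.1 hn.2.2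
      exact ⟨δ, hδ, fun _ _ _ => h⟩
    · exact ⟨1, one_ne_zero, fun a b c => absurd ⟨a, b, c⟩ hn⟩
  choose δ hδ hδ' using hd
  refine ⟨R δ, (R_ne_zero _).2 (Filter.Eventually.of_forall hδ), fun c' hc' => ?_⟩
  choose C' hC' using fun i => R_surj (c' i)
  obtain rfl : (fun i => R (C' i)) = c' := funext hC'
  have hn : ∀ᶠ n in (uf : Filter ℕ), ∀ i ≤ d, Near O (δ n) (C' i n) (C i n) := by
    have : ∀ i ∈ Finset.range (d + 1), ∀ᶠ n in (uf : Filter ℕ), Near O (δ n) (C' i n) (C i n) := by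
      intro i hi
      exact (near_iff O δ (C' i) (C i)).1 (hc' i (by rw [Finset.mem_range] at hi; omega))
    have h2 := (Finset.eventually_all (l := (uf : Filter ℕ)) (Finset.range (d + 1))
      (p := fun i n => Near O (δ n) (C' i n) (C i n))).2 this
    filter_upwards [h2] with n h3 i hi
    exact h3 i (by rw [Finset.mem_range]; omega)
  have hex : ∀ n, ∃ a' : K, (E n ≠ 0 →
      ∑ i ∈ Finset.range (d + 1), C i n * A n ^ i = 0 →
      ∑ i ∈ Finset.range (d + 1), (i : K) * C i n * A n ^ (i - 1) ≠ 0 →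
      (∀ i ≤ d, Near O (δ n) (C' i n) (C i n)) → Near O (E n) a' (A n) ∧
        ∑ i ∈ Finset.range (d + 1), C' i n * a' ^ i = 0) := by
    intro n
    by_cases hn : E n ≠ 0 ∧ ∑ i ∈ Finset.range (d + 1), C i n * A n ^ i = 0 ∧
      ∑ i ∈ Finset.range (d + 1), (i : K) * C i n * A n ^ (i - 1) ≠ 0 ∧
      ∀ i ≤ d, Near O (δ n) (C' i n) (C i n)
    · obtain ⟨a', h⟩ := hδ' n hn.1 hn.2.1 hn.2.2.1 (fun i => C' i n) hn.2.2.2
      exact ⟨a', fun _ _ _ _ => h⟩
    · exact ⟨0, fun a b c d => absurd ⟨a, b, c, d⟩ hn⟩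
  choose a' ha' using hex
  refine ⟨R a', ?_, ?_⟩
  · rw [near_iff]
    filter_upwards [he, h0', h1', hn] with n k1 k2 k3 k4 using (ha' n k1 k2 k3 k4).1
  · have : R (∑ i ∈ Finset.range (d + 1), C' i * a' ^ i) = 0 := by
      rw [R_eq_zero]
      filter_upwards [he, h0', h1', hn] with n k1 k2 k3 k4
      simpa using (ha' n k1 k2 k3 k4).2
    rw [← this, map_sum]
    exact Finset.sum_congr rfl fun i _ => by rw [map_mul, map_pow]

theorem pbas (p : ℕ) (t : K) (h : PBas p K t) : PBas p (UP K) (t : UP K) := by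
  have ht : ((t : K) : UP K) = R (fun _ => t) := rfl
  rw [ht]
  constructor
  · intro z
    obtain ⟨f, rfl⟩ := R_surj z
    choose c hc using fun n => h.1 (f n)
    refine ⟨fun i => R (fun n => c n i), ?_⟩
    have : f = ∑ i : Fin p, (fun n => c n i) ^ p * (fun _ => t) ^ (i : ℕ) := by
      ext n
      rw [Finset.sum_apply]
      exact hc n
    conv_lhs => rw [this]
    rw [map_sum]
    exact Finset.sum_congr rfl fun i _ => by rw [map_mul, map_pow, map_pow]
  · intro c hc i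
    choose C hC using fun i => R_surj (c i)
    obtain rfl : (fun i => R (C i)) = c := funext hC
    have : R (∑ i : Fin p, C i ^ p * (fun _ => t) ^ (i : ℕ)) = 0 := by
      rw [← hc, map_sum]
      exact Finset.sum_congr rfl fun i _ => by rw [map_mul, map_pow, map_pow]
    rw [R_eq_zero] at this ⊢
    filter_upwards [this] with n hn
    rw [Finset.sum_apply] at hn
    exact h.2 (fun i => C i n) hn i

theorem main : St_ULT := by
  intro p _ K _ _ O t hO hP
  refine ⟨?_, pbas p t hP, O' O, hens O hO, fun f => Iff.rfl⟩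
  exact charP_of_injective_ringHom ((R (K := K)).comp (Pi.constRingHom ℕ K)).injective p

end Pool.Agent.Helper6.XF.ULT
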